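import Pool.Agent.Helper5.GB.St
import Pool.Agent.Helper83.PF.Asm

/-!
# MP_b39980_an, project GB: assembly
-/

set_option autoImplicit false

open Set Filter Topology
open Helper85.HN (hen Orb Bd KK E0)

noncomputable section

namespace Pool.Agent.Helper5.GB

/-- lower curve -/
def lo (b : ℝ) : ℝ := -(3 * (1 + |b|) ^ 2)
/-- upper curve -/
def hi (b : ℝ) : ℝ := (1 + b) ^ 2 / 4

/-- The principal component. -/
def GG : Set (ℝ × ℝ) := connectedComponentIn (frontier E0) (1, 1)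

theorem lo_cont : Continuous lo := by unfold lo; fun_prop
theorem hi_cont : Continuous hi := by unfold hi; fun_prop

theorem lo_le (M x : ℝ) (h : |x| ≤ M) : lo M ≤ lo x := by
  unfold lo
  have h0 := abs_nonneg x
  have h1 : |M| = M := abs_of_nonneg (h0.trans h)
  rw [h1]
  nlinarith

theorem hi_le (M x : ℝ) (h : |x| ≤ M) : hi x ≤ hi M := by
  unfold hi
  have h0 := abs_le.1 h
  nlinarith [h0.1, h0.2]

/-- bounds for the frontier -/
theorem bds (h1 : StBot) (h2 : Helper85.HN.StTop) : ∀ q ∈ frontier E0, lo q.1 ≤ q.2 ∧ q.2 ≤ hi q.1 := by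
  intro q hq
  refine ⟨?_, (h2.1 q hq).1⟩
  by_contra hlt
  have hlt' : q.2 < lo q.1 := not_le.1 hlt
  have hU : IsOpen {z : ℝ × ℝ | z.2 < lo z.1} := isOpen_lt continuous_snd (lo_cont.comp continuous_fst)
  have hsub : {z : ℝ × ℝ | z.2 < lo z.1} ⊆ E0ᶜ := by
    intro z hz hz'
    have h3 := h1 z.1 z.2 (le_of_lt hz)
    exact absurd (hz' : Dynamics.coverEntropy (hen z.1 z.2) (KK z.1 z.2) ≤ 0) (not_le.2 h3)
  have hint : q ∈ interior E0ᶜ := interior_maximal hsub hU hlt'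
  rw [interior_compl] at hint
  exact hint hq.1

theorem line_one (h2 : Helper85.HN.StTop) (h3 : Helper83.PE.StFinA) : ∀ q ∈ frontier E0, q.1 = 1 → q = (1, 1) := by
  intro q hq hq1
  have e1 := (h2.1 q hq).1
  rcases lt_or_ge q.2 1 with h | h
  · exfalso
    obtain ⟨δ, hδ, hh⟩ := h3 q.2 h
    obtain ⟨z, hz, hzE⟩ := Metric.mem_closure_iff.1 hq.1 δ hδ
    rw [Prod.dist_eq, max_lt_iff, Real.dist_eq, Real.dist_eq] at hzE
    refine hh z.1 z.2 ?_ ?_ hz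
    · rw [abs_sub_comm]; rw [hq1] at hzE; exact hzE.1
    · rw [abs_sub_comm]; exact hzE.2
  · refine Prod.ext hq1 ?_
    rw [hq1] at e1
    have : q.2 ≤ 1 := by norm_num at e1; exact e1
    exact le_antisymm this h

theorem line_neg (h2 : Helper85.HN.StTop) (h3 : StNeg) : ∀ q ∈ frontier E0, q.1 = -1 → q = (-1, 0) := by
  intro q hq hq1
  have e1 := (h2.1 q hq).1
  rcases lt_or_ge q.2 0 with h | h
  · exfalso
    obtain ⟨δ, hδ, hh⟩ := h3 q.2 h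
    obtain ⟨z, hz, hzE⟩ := Metric.mem_closure_iff.1 hq.1 δ hδ
    rw [Prod.dist_eq, max_lt_iff, Real.dist_eq, Real.dist_eq] at hzE
    refine hh z.1 z.2 ?_ ?_ hz
    · have := hzE.1
      rw [hq1] at this
      rw [show z.1 + 1 = -(-1 - z.1) by ring, abs_neg]; exact this
    · rw [abs_sub_comm]; exact hzE.2
  · refine Prod.ext hq1 ?_
    rw [hq1] at e1
    have : q.2 ≤ 0 := by norm_num at e1; exact e1
    exact le_antisymm this h

/-- continua in vertical strips -/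
theorem strip (hS : StSep) (h1 : StBot) (h2 : Helper85.HN.StTop) (p q : ℝ) (hpq : p < q) :
    ∃ Γ ⊆ frontier E0, IsCompact Γ ∧ IsPreconnected Γ ∧ (∃ z ∈ Γ, z.1 = p) ∧ (∃ z ∈ Γ, z.1 = q) ∧
      ∀ z ∈ Γ, p ≤ z.1 ∧ z.1 ≤ q := by
  obtain ⟨M, hM⟩ : ∃ M, M = max |p| |q| := ⟨_, rfl⟩
  have hM0 : 0 ≤ M := by rw [hM]; exact (abs_nonneg p).trans (le_max_left _ _)
  have hx : ∀ x ∈ Icc p q, |x| ≤ M := by
    intro x hx
    rw [hM]
    exact abs_le_max_abs_abs hx.1 hx.2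
  obtain ⟨Γ, hΓ, g1, g2, g3, g4⟩ := hS E0 p q (lo M) (hi M) hpq (by
      unfold lo hi
      rw [abs_of_nonneg hM0]
      nlinarith) (by
      intro x hx'
      apply subset_closure
      exact h2.2.1 (x, hi M) (hi_le M x (hx x hx'))) (by
      intro x hx'
      apply subset_closure
      intro hE
      have h3 := h1 x (lo M) (lo_le M x (hx x hx'))
      exact absurd (hE : Dynamics.coverEntropy (hen x (lo M)) (KK x (lo M)) ≤ 0) (not_le.2 h3))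
  exact ⟨Γ, fun z hz => (hΓ hz).1, g1, g2, g3, g4, fun z hz => (hΓ hz).2.1⟩

theorem mem_of_strip {Γ : Set (ℝ × ℝ)} (hc : IsPreconnected Γ) {p q x : ℝ} (h1 : ∃ z ∈ Γ, z.1 = p) (h2 : ∃ z ∈ Γ, z.1 = q)
    (hp : p ≤ x) (hq : x ≤ q) : ∃ z ∈ Γ, z.1 = x := by
  obtain ⟨z1, hz1, e1⟩ := h1
  obtain ⟨z2, hz2, e2⟩ := h2
  have hi' := (hc.image Prod.fst continuous_fst.continuousOn).intermediate_value (mem_image_of_mem _ hz1) (mem_image_of_mem _ hz2)
    (f := id) continuousOn_id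
  have hx : x ∈ Icc (id z1.1) (id z2.1) := by
    simp only [id, e1, e2]; exact ⟨hp, hq⟩
  obtain ⟨y, ⟨z, hz, rfl⟩, hy⟩ := hi' hx
  exact ⟨z, hz, hy⟩

/-- Everything about the frontier that the final proof uses. -/
theorem conn (hS : StSep) (h1 : StBot) (h2 : Helper85.HN.StTop) (h3 : Helper83.PE.StFinA) (h4 : StNeg) (p q : ℝ) (hpq : p < q)
    (hp : p ≤ 1) (hq : 1 ≤ q) : ∃ Γ ⊆ GG, IsCompact Γ ∧ IsPreconnected Γ ∧ (1, 1) ∈ Γ ∧ (∃ z ∈ Γ, z.1 = p) ∧ (∃ z ∈ Γ, z.1 = q) ∧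
      (∀ z ∈ Γ, p ≤ z.1 ∧ z.1 ≤ q) ∧ (p ≤ -1 → (-1, 0) ∈ Γ) := by
  obtain ⟨Γ, g0, g1, g2, g3, g4, g5⟩ := strip hS h1 h2 p q hpq
  have h11 : ((1 : ℝ), (1 : ℝ)) ∈ Γ := by
    obtain ⟨z, hz, hz1⟩ := mem_of_strip g2 g3 g4 hp hq
    rw [← line_one h2 h3 z (g0 hz) hz1]; exact hz
  refine ⟨Γ, g2.subset_connectedComponentIn h11 g0, g1, g2, h11, g3, g4, g5, fun hp' => ?_⟩
  obtain ⟨z, hz, hz1⟩ := mem_of_strip g2 g3 g4 hp' (by linarith : (-1 : ℝ) ≤ q)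
  rw [← line_neg h2 h4 z (g0 hz) hz1]; exact hz

theorem GG_sub : GG ⊆ frontier E0 := connectedComponentIn_subset _ _

theorem GG_closed (h : ((1 : ℝ), (1 : ℝ)) ∈ frontier E0) : IsClosed GG := by
  have hpre : IsPreconnected GG := isPreconnected_connectedComponentIn
  have hmem : ((1 : ℝ), (1 : ℝ)) ∈ GG := mem_connectedComponentIn h
  have h1 : closure GG ⊆ frontier E0 := closure_minimal GG_sub isClosed_frontier
  have h2 : closure GG ⊆ GG := hpre.closure.subset_connectedComponentIn (subset_closure hmem) h1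
  exact isClosed_of_closure_subset h2

/-- crossing a parabola -/
theorem par (Γ : Set (ℝ × ℝ)) (τ δ : ℝ) (hc : IsPreconnected Γ) (hm : ((-1 : ℝ), (0 : ℝ)) ∈ Γ) (hp : ((1 : ℝ), (1 : ℝ)) ∈ Γ)
    (hb : ∀ q ∈ Γ, -1 ≤ q.1 ∧ q.1 ≤ 1) (h1 : ∀ q ∈ Γ, q.1 = 1 → q = (1, 1)) (h2 : ∀ q ∈ Γ, q.1 = -1 → q = (-1, 0)) (hδ : 0 < δ)
    (h3 : ∀ q ∈ Γ, dist q (-1, 0) < δ → q ≠ (-1, 0) → q.2 + τ * (1 + q.1) ^ 2 < 0) (hτ : -1 / 4 < τ) :
    ∃ b ∈ Ioo (-1 : ℝ) 1, (b, -(τ * (1 + b) ^ 2)) ∈ Γ := by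
  by_contra hno
  push Not at hno
  set φ : ℝ × ℝ → ℝ := fun q => q.2 + τ * (1 + q.1) ^ 2 with hφ
  have hφc : Continuous φ := by rw [hφ]; fun_prop
  have hU : IsOpen {q | 0 < φ q} := isOpen_lt continuous_const hφc
  have hV : IsOpen ({q | φ q < 0} ∪ Metric.ball ((-1 : ℝ), (0 : ℝ)) δ) := (isOpen_lt hφc continuous_const).union Metric.isOpen_ball
  have hcov : Γ ⊆ {q | 0 < φ q} ∪ ({q | φ q < 0} ∪ Metric.ball ((-1 : ℝ), (0 : ℝ)) δ) := by
    intro q hq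
    rcases lt_trichotomy (φ q) 0 with h | h | h
    · exact Or.inr (Or.inl h)
    · right; right
      have hq2 : q.2 = -(τ * (1 + q.1) ^ 2) := by
        have : q.2 + τ * (1 + q.1) ^ 2 = 0 := h
        linarith
      obtain ⟨hb1, hb2⟩ := hb q hq
      rcases hb1.lt_or_eq with hlt | heq
      · rcases hb2.lt_or_eq with hlt' | heq'
        · exfalso
          refine hno q.1 ⟨hlt, hlt'⟩ ?_
          rw [← hq2]; exact hq
        · exfalso
          have := h1 q hq heq'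
          rw [this] at h
          simp only [hφ] at h
          norm_num at h
          linarith
      · rw [h2 q hq heq.symm]
        exact Metric.mem_ball_self hδ
    · exact Or.inl h
  obtain ⟨q, hq, hqU, hqV⟩ := hc _ _ hU hV hcov ⟨(1, 1), hp, by
    change (0 : ℝ) < (1 : ℝ) + τ * (1 + 1) ^ 2
    linarith⟩ ⟨(-1, 0), hm, Or.inr (Metric.mem_ball_self hδ)⟩
  have hqU' : 0 < φ q := hqU
  rcases hqV with h | h
  · exact absurd (h : φ q < 0) (not_lt.2 hqU'.le)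
  · have hne : q ≠ (-1, 0) := by
      intro he
      rw [he] at hqU'
      change (0 : ℝ) < (0 : ℝ) + τ * (1 + -1) ^ 2 at hqU'
      norm_num at hqU'
    have := h3 q hq h hne
    exact absurd (this : φ q < 0) (not_lt.2 hqU'.le)

/-- cut points -/
theorem cut (S : Set (ℝ × ℝ)) (x : ℝ) (p : ℝ × ℝ) (hx : p.1 = x) (h : ∀ q ∈ S, q.1 = x → q = p) (h1 : ∃ q ∈ S, q.1 < x) (h2 : ∃ q ∈ S, x < q.1) :
    ¬IsPreconnected (S \ {p}) := by
  intro hc
  have hU : IsOpen {q : ℝ × ℝ | q.1 < x} := isOpen_lt continuous_fst continuous_const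
  have hV : IsOpen {q : ℝ × ℝ | x < q.1} := isOpen_lt continuous_const continuous_fst
  obtain ⟨q1, hq1, e1⟩ := h1
  obtain ⟨q2, hq2, e2⟩ := h2
  obtain ⟨q, -, hqU, hqV⟩ := hc _ _ hU hV (by
    intro q hq
    rcases lt_trichotomy q.1 x with h' | h' | h'
    · exact Or.inl h'
    · exact absurd (h q hq.1 h') hq.2
    · exact Or.inr h') ⟨q1, ⟨hq1, by
      intro he
      rw [mem_singleton_iff] at he
      rw [he, hx] at e1
      exact lt_irrefl _ e1⟩, e1⟩ ⟨q2, ⟨hq2, by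
      intro he
      rw [mem_singleton_iff] at he
      rw [he, hx] at e2
      exact lt_irrefl _ e2⟩, e2⟩
  have hqU1 : q.1 < x := hqU
  have hqV1 : x < q.1 := hqV
  exact absurd hqU1 (not_lt.2 hqV1.le)

/-- The statement about the principal component. -/
def StPri : Prop :=
  (-1, 0) ∈ GG ∧ (∀ b : ℝ, ∃ c : ℝ, (b, c) ∈ GG) ∧ ¬IsPreconnected (GG \ {(1, 1)}) ∧ ¬IsPreconnected (GG \ {(-1, 0)}) ∧
  (∀ C : Set (ℝ × ℝ), IsPreconnected C → (∃ q ∈ C, (1 + q.1) ^ 2 / 4 ≤ q.2) → (∃ q ∈ C, q.2 ≤ -(3 * (1 + |q.1|) ^ 2)) →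
    (C ∩ GG).Nonempty) ∧
  ∃ Γ ⊆ GG, IsCompact Γ ∧ IsPreconnected Γ ∧ (-1, 0) ∈ Γ ∧ (1, 1) ∈ Γ ∧ (∀ q ∈ Γ, |q.1| ≤ 1) ∧
    ∀ τ > (-1 / 4 : ℝ), ∃ b ∈ Ioo (-1 : ℝ) 1, (b, -(τ * (1 + b) ^ 2)) ∈ Γ

theorem pri (hS : StSep) (hB : StBig) (hT : StTip) (h1 : StBot) (h2 : Helper85.HN.StTop) (h3 : Helper83.PE.StFinA) (h4 : StNeg)
    (h5 : ((1 : ℝ), (1 : ℝ)) ∈ frontier E0) : StPri := by
  have hall : ∀ b : ℝ, ∃ c : ℝ, (b, c) ∈ GG := by
    intro b
    rcases lt_trichotomy b 1 with h | h | h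
    · obtain ⟨Γ, g0, -, -, -, ⟨z, hz, e⟩, -⟩ := conn hS h1 h2 h3 h4 b 1 h h.le le_rfl
      exact ⟨z.2, by rw [← e]; exact g0 hz⟩
    · exact ⟨1, by rw [h]; exact mem_connectedComponentIn h5⟩
    · obtain ⟨Γ, g0, -, -, -, -, ⟨z, hz, e⟩, -⟩ := conn hS h1 h2 h3 h4 1 b h le_rfl h.le
      exact ⟨z.2, by rw [← e]; exact g0 hz⟩
  obtain ⟨Γ, g0, g1, g2, g3, g4, g5, g6, g7⟩ := conn hS h1 h2 h3 h4 (-1) 1 (by norm_num) (by norm_num) le_rfl
  have g8 : ((-1 : ℝ), (0 : ℝ)) ∈ Γ := g7 le_rfl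
  refine ⟨g0 g8, hall, ?_, ?_, ?_, Γ, g0, g1, g2, g8, g3, fun q hq => abs_le.2 (g6 q hq), ?_⟩
  · refine cut GG 1 (1, 1) rfl (fun q hq => line_one h2 h3 q (GG_sub hq)) ?_ ?_
    · obtain ⟨c, hc⟩ := hall 0
      exact ⟨_, hc, by norm_num⟩
    · obtain ⟨c, hc⟩ := hall 2
      exact ⟨_, hc, by norm_num⟩
  · refine cut GG (-1) (-1, 0) rfl (fun q hq => line_neg h2 h4 q (GG_sub hq)) ?_ ?_
    · obtain ⟨c, hc⟩ := hall (-2)
      exact ⟨_, hc, by norm_num⟩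
    · obtain ⟨c, hc⟩ := hall 0
      exact ⟨_, hc, by norm_num⟩
  · intro C hC hCt hCb
    refine hB GG lo hi (GG_closed h5) lo_cont hi_cont (fun z hz => bds h1 h2 z (GG_sub hz)) ?_ C hC hCt hCb
    intro N hN
    obtain ⟨Γ', k0, k1, k2, -, k4, k5, k6, -⟩ := conn hS h1 h2 h3 h4 (-N) N (by linarith) (by linarith) hN
    exact ⟨Γ', k0, k1, k2, k4, k5, fun z hz => abs_le.2 (k6 z hz)⟩
  · intro τ hτ
    obtain ⟨δ, hδ, hh⟩ := hT τ
    exact par Γ τ δ g2 g8 g3 g6 (fun q hq => line_one h2 h3 q (GG_sub (g0 hq))) (fun q hq => line_neg h2 h4 q (GG_sub (g0 hq))) hδ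
      (fun q hq => hh q (GG_sub (g0 hq))) hτ

/-- The statement about arcs. -/
def StArc : Prop := ∀ I : Set ℝ, I.OrdConnected → Nonempty (I ≃ₜ frontier E0) →
  ∃ e : ℝ ≃ₜ frontier E0, (e 0 : ℝ × ℝ) = (-1, 0) ∧ (e 1 : ℝ × ℝ) = (1, 1) ∧
    (∀ t, (e t : ℝ × ℝ).1 < -1 ↔ t < 0) ∧ (∀ t, 1 < (e t : ℝ × ℝ).1 ↔ 1 < t) ∧
    Tendsto (fun t => (e t : ℝ × ℝ).1) atTop atTop ∧ Tendsto (fun t => (e t : ℝ × ℝ).1) atBot atBot

theorem arc (hE : StEmb) (hP : StPri) (h1 : StBot) (h2 : Helper85.HN.StTop) (h3 : Helper83.PE.StFinA) (h4 : StNeg)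
    (h5 : ((1 : ℝ), (1 : ℝ)) ∈ frontier E0) : StArc := by
  refine hE (frontier E0) (1, 1) (-1, 0) h5 (GG_sub hP.1) rfl rfl (line_one h2 h3) (line_neg h2 h4) ?_ ?_
  · intro x
    obtain ⟨c, hc⟩ := hP.2.1 x
    exact ⟨_, GG_sub hc, rfl⟩
  · intro N
    refine (isCompact_Icc.prod isCompact_Icc : IsCompact (Icc (-N) N ×ˢ Icc (lo N) (hi N))).of_isClosed_subset ?_ ?_
    · refine isClosed_frontier.inter ?_
      exact isClosed_le (continuous_abs.comp continuous_fst) continuous_const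
    · rintro q ⟨hq, hq1⟩
      have hq1' : |q.1| ≤ N := hq1
      have hb := bds h1 h2 q hq
      exact ⟨abs_le.1 hq1', (lo_le N q.1 hq1').trans hb.1, hb.2.trans (hi_le N q.1 hq1')⟩

/-- period two orbits below the parabola `c = -(3/4) (1+b)²` -/
theorem two (b c : ℝ) (h : c + 3 / 4 * (1 + b) ^ 2 < 0) : ∃ x : ℤ → ℝ, Orb b c x ∧ (∀ n, x (n + 2) = x n) ∧ ∀ n, x (n + 1) ≠ x n := by
  obtain ⟨r, hr0, hr⟩ : ∃ r : ℝ, 0 < r ∧ r ^ 2 = -4 * c - 3 * (1 + b) ^ 2 :=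
    ⟨Real.sqrt (-4 * c - 3 * (1 + b) ^ 2), Real.sqrt_pos.2 (by linarith), Real.sq_sqrt (by linarith)⟩
  set z : ℝ := (-(1 + b) + r) / 2 with hz
  set y : ℝ := (-(1 + b) - r) / 2 with hy
  have e1 : (1 + b) * y = z ^ 2 + c := by rw [hz, hy]; nlinarith
  have e2 : (1 + b) * z = y ^ 2 + c := by rw [hz, hy]; nlinarith
  have e3 : y ≠ z := by
    intro he
    rw [hz, hy] at he
    linarith
  refine ⟨fun n => if Even n then z else y, ?_, ?_, ?_⟩
  · intro n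
    rcases Int.even_or_odd n with h | h
    · have h1 : ¬Even (n + 1) := by rw [Int.not_even_iff_odd]; exact h.add_one
      have h2 : ¬Even (n - 1) := by rw [Int.not_even_iff_odd]; exact h.sub_odd odd_one
      simp only [h1, h2, h, if_true, if_false]
      linarith
    · have h1 : Even (n + 1) := h.add_one
      have h2 : Even (n - 1) := h.sub_odd odd_one
      have h3 : ¬Even n := by rw [Int.not_even_iff_odd]; exact h
      simp only [h1, h2, h3, if_true, if_false]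
      linarith
  · intro n
    have : Even (n + 2) ↔ Even n := by
      rw [Int.even_add]; simp
    simp only [this]
  · intro n
    rcases Int.even_or_odd n with h | h
    · have h1 : ¬Even (n + 1) := by rw [Int.not_even_iff_odd]; exact h.add_one
      simp only [h1, h, if_true, if_false]
      exact e3
    · have h1 : Even (n + 1) := h.add_one
      have h3 : ¬Even n := by rw [Int.not_even_iff_odd]; exact h
      simp only [h1, h3, if_true, if_false]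
      exact e3.symm

/-- The statement about periods. -/
def StPer : Prop := ∀ N : ℕ, ∃ δ > 0,
  (∀ (q : ℝ × ℝ) (x : ℤ → ℝ) (m : ℕ), 1 ≤ m → m ≤ N → Orb q.1 q.2 x → (∀ n, x (n + m) = x n) →
    (dist q (1, 1) < δ → ∀ n, x (n + 1) = x n) ∧ (dist q (-1, 0) < δ → ∀ n, x (n + 2) = x n)) ∧
  ∀ q ∈ frontier E0, dist q (-1, 0) < δ → q ≠ (-1, 0) →
    ∃ x : ℤ → ℝ, Orb q.1 q.2 x ∧ (∀ n, x (n + 2) = x n) ∧ ∀ n, x (n + 1) ≠ x n

theorem per (hC : StCyc) (hT : StTip) : StPer := by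
  intro N
  obtain ⟨δ1, hδ1, h1⟩ := hC N
  obtain ⟨δ2, hδ2, h2⟩ := hT (3 / 4)
  refine ⟨min δ1 δ2, lt_min hδ1 hδ2, ?_, ?_⟩
  · intro q x m hm1 hm2 hx hp
    obtain ⟨g1, g2⟩ := h1 q.1 q.2 x m hm1 hm2 hx hp
    refine ⟨fun hd => ?_, fun hd => ?_⟩
    · rw [Prod.dist_eq, max_lt_iff, Real.dist_eq, Real.dist_eq] at hd
      exact g1 (hd.1.trans_le (min_le_left _ _)) (hd.2.trans_le (min_le_left _ _))
    · rw [Prod.dist_eq, max_lt_iff, Real.dist_eq, Real.dist_eq] at hd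
      refine g2 ?_ ?_
      · have := hd.1.trans_le (min_le_left δ1 δ2)
        simpa using this
      · have := hd.2.trans_le (min_le_left δ1 δ2)
        simpa using this
  · intro q hq hd hne
    exact two q.1 q.2 (h2 q hq (hd.trans_le (min_le_right _ _)) hne)

end Pool.Agent.Helper5.GB

end
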