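import Pool.Agent.Helper5.GB.Asm

/-!
# MP_b39980_an, project GB: the branches of the principal component at the conservative points
-/

set_option autoImplicit false

open Set Filter Topology
open Helper85.HN (hen Orb Bd KK E0)

noncomputable section

namespace Pool.Agent.Helper5.GB

/-- a hook -/
theorem hook (x0 x1 y : ℝ) : IsPreconnected (({x0} ×ˢ Iic y) ∪ ((uIcc x0 x1 ×ˢ {y}) ∪ ({x1} ×ˢ Ici y)) : Set (ℝ × ℝ)) := by
  have h1 : IsPreconnected ({x0} ×ˢ Iic y : Set (ℝ × ℝ)) := isPreconnected_singleton.prod isPreconnected_Iic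
  have h2 : IsPreconnected (uIcc x0 x1 ×ˢ {y} : Set (ℝ × ℝ)) := isPreconnected_uIcc.prod isPreconnected_singleton
  have h3 : IsPreconnected ({x1} ×ˢ Ici y : Set (ℝ × ℝ)) := isPreconnected_singleton.prod isPreconnected_Ici
  refine h1.union (x0, y) ⟨rfl, mem_Iic.2 le_rfl⟩ (Or.inl ⟨left_mem_uIcc, rfl⟩) ?_
  exact h2.union (x1, y) ⟨right_mem_uIcc, rfl⟩ ⟨rfl, mem_Ici.2 le_rfl⟩ h3

theorem branch (hsep : ∀ C : Set (ℝ × ℝ), IsPreconnected C → (∃ q ∈ C, (1 + q.1) ^ 2 / 4 ≤ q.2) → (∃ q ∈ C, q.2 ≤ -(3 * (1 + |q.1|) ^ 2)) →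
    (C ∩ GG).Nonempty) (x0 x1 y : ℝ) (h0 : ∀ c ≤ y, (x0, c) ∉ frontier E0) (h1 : ∀ c, y ≤ c → (x1, c) ∉ frontier E0) :
    ∃ x, min x0 x1 < x ∧ x < max x0 x1 ∧ (x, y) ∈ GG := by
  obtain ⟨⟨x, c⟩, hC, hG⟩ := hsep _ (hook x0 x1 y) (by
      refine ⟨(x1, max y ((1 + x1) ^ 2 / 4)), Or.inr (Or.inr ⟨rfl, mem_Ici.2 (le_max_left _ _)⟩), le_max_right _ _⟩) (by
      refine ⟨(x0, min y (-(3 * (1 + |x0|) ^ 2))), Or.inl ⟨rfl, mem_Iic.2 (min_le_left _ _)⟩, min_le_right _ _⟩)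
  have hF := GG_sub hG
  rcases hC with ⟨e1, e2⟩ | ⟨e1, e2⟩ | ⟨e1, e2⟩
  · rw [mem_singleton_iff] at e1
    simp only at e1
    rw [e1] at hF
    exact absurd hF (h0 c e2)
  · rw [mem_singleton_iff] at e2
    simp only at e2
    have e1' : x ∈ uIcc x0 x1 := e1
    rw [uIcc, mem_Icc] at e1'
    rw [e2] at hF hG
    have n0 : x ≠ x0 := by rintro rfl; exact h0 y le_rfl hF
    have n1 : x ≠ x1 := by rintro rfl; exact h1 y le_rfl hF
    refine ⟨x, lt_of_le_of_ne e1'.1 ?_, lt_of_le_of_ne e1'.2 ?_, hG⟩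
    · intro he
      rcases min_choice x0 x1 with h | h <;> rw [h] at he
      · exact n0 he.symm
      · exact n1 he.symm
    · intro he
      rcases max_choice x0 x1 with h | h <;> rw [h] at he
      · exact n0 he
      · exact n1 he
  · rw [mem_singleton_iff] at e1
    simp only at e1
    rw [e1] at hF
    exact absurd hF (h1 c e2)

/-- `exp (-(a/x)) ≤ x²` eventually -/
theorem small_exp (a : ℝ) (ha : 0 < a) : ∃ x0 > 0, ∀ x, 0 < x → x < x0 → Real.exp (-(a / x)) ≤ x ^ 5 := by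
  refine ⟨a ^ 6 / 720, by positivity, fun x hx hx0 => ?_⟩
  have h1 : (a / x) ^ 6 / 720 ≤ Real.exp (a / x) := by
    have := Real.pow_div_factorial_le_exp (a / x) (by positivity) 6
    norm_num [Nat.factorial] at this ⊢
    exact this
  rw [Real.exp_neg]
  have h2 : 0 < (a / x) ^ 6 / 720 := by positivity
  calc (Real.exp (a / x))⁻¹ ≤ ((a / x) ^ 6 / 720)⁻¹ := inv_anti₀ h2 h1
    _ = 720 * x ^ 6 / a ^ 6 := by field_simp
    _ = x ^ 5 * (720 * x / a ^ 6) := by ring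
    _ ≤ x ^ 5 * 1 := by
        refine mul_le_mul_of_nonneg_left ?_ (by positivity)
        rw [div_le_one (by positivity)]
        rw [lt_div_iff₀ (by norm_num)] at hx0
        linarith
    _ = x ^ 5 := mul_one _

/-- The branches at `(1,1)`. -/
def StBrA : Prop := ∃ a ε0 : ℝ, 0 < a ∧ 0 < ε0 ∧ ∀ ε ∈ Ioo 0 ε0, ∃ b1 b2 : ℝ, b1 < 1 ∧ 1 < b2 ∧
  (b1, 1 - ε) ∈ GG ∧ (b2, 1 - ε) ∈ GG ∧
  1 - b1 ≤ Real.exp (-(a / ε ^ (1 / 4 : ℝ))) ∧ b2 - 1 ≤ Real.exp (-(a / ε ^ (1 / 4 : ℝ)))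

/-- The branches at `(-1,0)`. -/
def StBrB : Prop := ∃ a ε0 : ℝ, 0 < a ∧ 0 < ε0 ∧ ∀ ε ∈ Ioo 0 ε0, ∃ b1 b2 : ℝ, b1 < -1 ∧ -1 < b2 ∧
  (b1, -ε) ∈ GG ∧ (b2, -ε) ∈ GG ∧
  -1 - b1 ≤ Real.exp (-(a / Real.sqrt ε)) ∧ b2 + 1 ≤ Real.exp (-(a / Real.sqrt ε))

theorem brB (hP : StPri) (h2 : Helper85.HN.StTop) (h4 : StNeg) (h5 : StHof) : StBrB := by
  obtain ⟨a, d, ha, hd, hh⟩ := h5
  obtain ⟨x0, hx0, hx⟩ := small_exp (a / 2) (by linarith)
  refine ⟨a / 2, min (min (d ^ 2) (1 / 4)) (x0 ^ 2), by linarith, by positivity, ?_⟩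
  rintro ε ⟨hε0, hε⟩
  obtain ⟨r, hr⟩ : ∃ r, r = Real.sqrt ε := ⟨_, rfl⟩
  have hr0 : 0 < r := by rw [hr]; exact Real.sqrt_pos.2 hε0
  have hr2 : r ^ 2 = ε := by rw [hr]; exact Real.sq_sqrt hε0.le
  have hεd : r < d := by
    have : ε < d ^ 2 := hε.trans_le ((min_le_left _ _).trans (min_le_left _ _))
    rw [← hr2] at this
    exact lt_of_pow_lt_pow_left₀ 2 hd.le this
  have hε4 : r < 1 / 2 := by
    have : ε < 1 / 4 := hε.trans_le ((min_le_left _ _).trans (min_le_right _ _))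
    rw [← hr2] at this
    nlinarith
  have hεx : r < x0 := by
    have : ε < x0 ^ 2 := hε.trans_le (min_le_right _ _)
    rw [← hr2] at this
    exact lt_of_pow_lt_pow_left₀ 2 hx0.le this
  rw [← hr]
  obtain ⟨η, hη⟩ : ∃ η, η = Real.exp (-(a / 2 / r)) := ⟨_, rfl⟩
  have hη0 : 0 < η := by rw [hη]; exact Real.exp_pos _
  have hη1 : η ≤ r ^ 5 := by rw [hη]; exact hx r hr0 hεx
  have hr5 : r ^ 5 ≤ r := by
    have : r ^ 4 ≤ 1 := pow_le_one₀ hr0.le (by linarith)
    nlinarith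
  have hηd : η < d := by linarith
  have hεd' : ε < d := by rw [← hr2]; nlinarith
  -- vertical rays
  have hray : ∀ b : ℝ, |b + 1| = η → ∀ c, -ε ≤ c → (b, c) ∉ frontier E0 := by
    intro b hb c hc hF
    have hpar := h2.1 _ hF
    simp only at hpar
    have hb2 : (1 + b) ^ 2 = η ^ 2 := by rw [← hb, sq_abs]; ring
    have hη2 : η ^ 2 / 4 < d := by nlinarith
    rcases le_or_gt d c with h | h
    · have := hpar.1
      rw [hb2] at this
      linarith
    · rcases hh (b, c) hF (by simp only; rw [hb]; exact hηd) (by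
        simp only; rw [abs_lt]; constructor <;> linarith) with h' | ⟨h', h''⟩
      · have : b = -1 := by have := congrArg Prod.fst h'; exact this
        rw [this] at hb
        norm_num at hb
        linarith
      · simp only at h' h''
        rw [hb, hη, Real.exp_le_exp] at h''
        have hs : Real.sqrt (-c) ≤ r := by rw [hr]; exact Real.sqrt_le_sqrt (by linarith)
        have hs0 : 0 < Real.sqrt (-c) := Real.sqrt_pos.2 (by linarith)
        have e1 : a / r ≤ a / Real.sqrt (-c) := by gcongr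
        have e2 : a / 2 / r = (a / r) / 2 := by ring
        have e3 : 0 < a / r := by positivity
        rw [e2] at h''
        linarith
  have hcen : ∀ c ≤ -ε, ((-1 : ℝ), c) ∉ frontier E0 := by
    intro c hc hF
    have := line_neg h2 h4 _ hF rfl
    have h0 : c = 0 := congrArg Prod.snd this
    linarith
  have hsep := hP.2.2.2.2.1
  obtain ⟨b1, g1, g2, g3⟩ := branch hsep (-1) (-1 - η) (-ε) hcen (hray _ (by
    rw [show -1 - η + 1 = -η by ring, abs_neg, abs_of_pos hη0]))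
  obtain ⟨b2, k1, k2, k3⟩ := branch hsep (-1) (-1 + η) (-ε) hcen (hray _ (by
    rw [show -1 + η + 1 = η by ring, abs_of_pos hη0]))
  rw [min_eq_right (by linarith)] at g1
  rw [max_eq_left (by linarith)] at g2
  rw [min_eq_left (by linarith)] at k1
  rw [max_eq_right (by linarith)] at k2
  refine ⟨b1, b2, g2, k1, g3, k3, ?_, ?_⟩
  · rw [← hη]; linarith
  · rw [← hη]; linarith

theorem brA (hP : StPri) (h2 : Helper85.HN.StTop) (h3 : Helper83.PE.StFinA) : StBrA := by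
  obtain ⟨a, d, ha, hd, -, hh⟩ := h2.2.2
  obtain ⟨x0, hx0, hx⟩ := small_exp (a / 2) (by linarith)
  refine ⟨a / 2, min (min (d / 3) (1 / 4)) (x0 ^ 4), by linarith, by positivity, ?_⟩
  rintro ε ⟨hε0, hε⟩
  obtain ⟨r, hr⟩ : ∃ r, r = ε ^ (1 / 4 : ℝ) := ⟨_, rfl⟩
  have hr0 : 0 < r := by rw [hr]; exact Real.rpow_pos_of_pos hε0 _
  have hr4 : r ^ 4 = ε := by
    rw [hr, ← Real.rpow_natCast, ← Real.rpow_mul hε0.le]
    norm_num
  have hεd : ε < d / 3 := hε.trans_le ((min_le_left _ _).trans (min_le_left _ _))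
  have hε4 : ε < 1 / 4 := hε.trans_le ((min_le_left _ _).trans (min_le_right _ _))
  have hr1 : r < 1 := by
    by_contra h
    have : 1 ≤ r ^ 4 := one_le_pow₀ (not_lt.1 h)
    linarith
  have hεx : r < x0 := by
    have : ε < x0 ^ 4 := hε.trans_le (min_le_right _ _)
    rw [← hr4] at this
    exact lt_of_pow_lt_pow_left₀ 4 hx0.le this
  rw [← hr]
  obtain ⟨η, hη⟩ : ∃ η, η = Real.exp (-(a / 2 / r)) := ⟨_, rfl⟩
  have hη0 : 0 < η := by rw [hη]; exact Real.exp_pos _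
  have hη1 : η ≤ r ^ 5 := by rw [hη]; exact hx r hr0 hεx
  have hηε : η < ε := by
    refine hη1.trans_lt ?_
    rw [← hr4]
    have : 0 < r ^ 4 := by positivity
    nlinarith
  -- vertical rays
  have hray : ∀ b : ℝ, |b - 1| = η → ∀ c, 1 - ε ≤ c → (b, c) ∉ frontier E0 := by
    intro b hb c hc hF
    have hpar := h2.1 _ hF
    simp only at hpar
    have hb' : b ≠ 1 := by
      rintro rfl
      norm_num at hb
      linarith
    have hbl : b ≤ 1 + η := by have := (abs_le.1 hb.le).2; linarith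
    have hbg : 1 - η ≤ b := by have := (abs_le.1 hb.le).1; linarith
    have hlt : c < (1 + b) ^ 2 / 4 := by
      rcases hpar.1.lt_or_eq with h | h
      · exact h
      · exfalso
        rcases hpar.2 h with h' | h'
        · exact hb' (congrArg Prod.fst h')
        · have : b = -1 := congrArg Prod.fst h'
          linarith
    have hbb : (1 + b) ^ 2 / 4 ≤ 1 + η + η ^ 2 / 4 := by nlinarith
    have he : (1 + b) ^ 2 / 4 - c ≤ 3 * ε := by nlinarith
    have he1 : (1 + b) ^ 2 / 4 - c < d := by linarith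
    have h' := hh (b, c) hF (by simp only; rw [hb]; linarith) (by simp only; linarith) hlt
    simp only at h'
    rw [hb, hη, Real.exp_le_exp] at h'
    obtain ⟨e, hee⟩ : ∃ e, e = (1 + b) ^ 2 / 4 - c := ⟨_, rfl⟩
    rw [← hee] at h' he
    have he0 : 0 < e := by rw [hee]; linarith
    have hre : e ^ (1 / 4 : ℝ) ≤ 3 / 2 * r := by
      have h16 : e ≤ (3 / 2 * r) ^ 4 := by
        rw [mul_pow, hr4]; norm_num; nlinarith
      calc e ^ (1 / 4 : ℝ) ≤ ((3 / 2 * r) ^ 4) ^ (1 / 4 : ℝ) := Real.rpow_le_rpow he0.le h16 (by norm_num)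
        _ = 3 / 2 * r := by
          rw [← Real.rpow_natCast, ← Real.rpow_mul (by positivity)]
          norm_num
    have hpe : 0 < e ^ (1 / 4 : ℝ) := Real.rpow_pos_of_pos he0 _
    have e1 : a / (3 / 2 * r) ≤ a / e ^ (1 / 4 : ℝ) := by gcongr
    have e2 : a / 2 / r < a / (3 / 2 * r) := by
      rw [div_div, div_lt_div_iff₀ (by positivity) (by positivity)]
      nlinarith [mul_pos ha hr0]
    linarith
  have hcen : ∀ c ≤ 1 - ε, ((1 : ℝ), c) ∉ frontier E0 := by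
    intro c hc hF
    have := line_one h2 h3 _ hF rfl
    have h0 : c = 1 := congrArg Prod.snd this
    linarith
  have hsep := hP.2.2.2.2.1
  obtain ⟨b1, g1, g2, g3⟩ := branch hsep 1 (1 - η) (1 - ε) hcen (hray _ (by
    rw [show 1 - η - 1 = -η by ring, abs_neg, abs_of_pos hη0]))
  obtain ⟨b2, k1, k2, k3⟩ := branch hsep 1 (1 + η) (1 - ε) hcen (hray _ (by
    rw [show 1 + η - 1 = η by ring, abs_of_pos hη0]))
  rw [min_eq_right (by linarith)] at g1
  rw [max_eq_left (by linarith)] at g2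
  rw [min_eq_left (by linarith)] at k1
  rw [max_eq_right (by linarith)] at k2
  refine ⟨b1, b2, g2, k1, g3, k3, ?_, ?_⟩
  · rw [← hη]; linarith
  · rw [← hη]; linarith

end Pool.Agent.Helper5.GB

end
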