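import Pool.Agent.Helper5.GB.St

/-!
# MP_b39980_an, project GB: the frontier is not piecewise analytic
-/

set_option autoImplicit false

open Set Filter Topology
open Helper85.HN (hen Orb Bd KK E0)

noncomputable section

namespace Pool.Agent.Helper5.GB

/-- The frontier is not a locally finite union of compact real analytic curves. -/
def StNan : Prop := ∀ (ι : Type) (γ : ι → ℝ → ℝ × ℝ) (α β : ι → ℝ), (∀ i, AnalyticOnNhd ℝ (γ i) (Icc (α i) (β i))) →
  LocallyFinite (fun i => γ i '' Icc (α i) (β i)) → frontier E0 ≠ ⋃ i, γ i '' Icc (α i) (β i)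

/-- one side -/
theorem side (h1 : StAna) (γ : ℝ → ℝ × ℝ) (hγ : AnalyticAt ℝ γ 0) (p : ℝ × ℝ) (hp : p = (1, 1) ∨ p = (-1, 0)) (h0 : γ 0 = p)
    (r : ℝ) (hr : 0 < r) (hF : ∀ s ∈ Ioo 0 r, γ s ∈ frontier E0) (hne : ∀ ε > 0, ∃ s ∈ Ioo 0 ε, γ s ≠ p) : False := by
  refine h1 γ hγ (by rw [h0]; exact hp) ?_
  have hf : ∀ᶠ t in 𝓝[>] (0 : ℝ), γ t ∈ frontier E0 := by
    filter_upwards [Ioo_mem_nhdsGT hr] with t ht using hF t ht
  have hg : AnalyticAt ℝ (fun t => γ t - p) 0 := hγ.sub analyticAt_const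
  have hn : ∀ᶠ t in 𝓝[>] (0 : ℝ), γ t ≠ γ 0 := by
    rcases hg.eventually_eq_zero_or_eventually_ne_zero with h | h
    · exfalso
      rw [Metric.eventually_nhds_iff] at h
      obtain ⟨ε, hε, h⟩ := h
      obtain ⟨s, hs, hs'⟩ := hne ε hε
      apply hs'
      have := @h s (by rw [Real.dist_eq, sub_zero, abs_of_pos hs.1]; exact hs.2)
      exact sub_eq_zero.1 this
    · have h' : ∀ᶠ t in 𝓝[>] (0 : ℝ), γ t - p ≠ 0 := h.filter_mono (nhdsWithin_mono _ (fun t ht => (ne_of_gt ht)))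
      filter_upwards [h'] with t ht
      rw [h0]
      exact fun he => ht (sub_eq_zero.2 he)
  exact hf.and hn

theorem nan (h1 : StAna) (p : ℝ × ℝ) (hp : p = (1, 1) ∨ p = (-1, 0)) (hacc : ∀ ε > 0, ∃ q ∈ frontier E0, q ≠ p ∧ dist q p < ε) : StNan := by
  intro ι γ α β hγ hlf hF
  obtain ⟨U, hU, hfin⟩ := hlf p
  -- choose a sequence
  have hseq : ∀ n : ℕ, ∃ q ∈ frontier E0, q ≠ p ∧ dist q p < 1 / ((n : ℝ) + 1) := fun n => hacc _ (by positivity)
  choose q hq hqp hqd using hseq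
  have hlim : Tendsto q atTop (𝓝 p) := by
    rw [tendsto_iff_dist_tendsto_zero]
    exact squeeze_zero (fun n => dist_nonneg) (fun n => (hqd n).le) tendsto_one_div_add_atTop_nhds_zero_nat
  have hev : ∀ᶠ n in atTop, q n ∈ U := hlim.eventually_mem hU
  have hidx : ∀ n, ∃ i, q n ∈ γ i '' Icc (α i) (β i) := by
    intro n
    have := hq n
    rw [hF, mem_iUnion] at this
    exact this
  choose j hj using hidx
  have hjfin : ∀ᶠ n in atTop, j n ∈ {i | (γ i '' Icc (α i) (β i) ∩ U).Nonempty} := by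
    filter_upwards [hev] with n hn
    exact ⟨q n, hj n, hn⟩
  obtain ⟨i, -, hi⟩ := (hfin.frequently_exists (l := atTop) (p := fun i n => j n = i)).1
    (hjfin.frequently.mono fun n hn => ⟨j n, hn, rfl⟩)
  obtain ⟨φ, hφ, hφi⟩ := extraction_of_frequently_atTop hi
  have ht : ∀ n, ∃ s ∈ Icc (α i) (β i), γ i s = q (φ n) := by
    intro n
    have := hj (φ n)
    rw [hφi n] at this
    exact this
  choose t htI htq using ht
  obtain ⟨t0, ht0, ψ, hψ, hψl⟩ := isCompact_Icc.tendsto_subseq htI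
  have hsub : ∀ s ∈ Icc (α i) (β i), γ i s ∈ frontier E0 := by
    intro s hs
    rw [hF, mem_iUnion]
    exact ⟨i, s, hs, rfl⟩
  have hγt0 : γ i t0 = p := by
    have e1 : Tendsto (fun n => γ i (t (ψ n))) atTop (𝓝 (γ i t0)) := ((hγ i t0 ht0).continuousAt.tendsto).comp hψl
    have e2 : Tendsto (fun n => γ i (t (ψ n))) atTop (𝓝 p) := by
      have e3 : (fun n => γ i (t (ψ n))) = fun n => q (φ (ψ n)) := funext fun n => htq _
      rw [e3]
      exact hlim.comp (hφ.tendsto_atTop.comp hψ.tendsto_atTop)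
    exact tendsto_nhds_unique e1 e2
  have hne : ∀ n, t (ψ n) ≠ t0 := by
    intro n he
    apply hqp (φ (ψ n))
    rw [← htq, he, hγt0]
  have hor : (∃ᶠ n in atTop, t0 < t (ψ n)) ∨ ∃ᶠ n in atTop, t (ψ n) < t0 := by
    rw [← frequently_or_distrib]
    exact Frequently.of_forall fun n => (hne n).symm.lt_or_gt
  rcases hor with hfr | hfr
  · obtain ⟨n0, hn0⟩ := hfr.exists
    refine side h1 (fun s => γ i (t0 + s)) ?_ p hp (by simp [hγt0]) (t (ψ n0) - t0) (by linarith) ?_ ?_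
    · have e1 : AnalyticAt ℝ (γ i) ((fun s : ℝ => t0 + s) 0) := by simpa using hγ i t0 ht0
      exact e1.comp (analyticAt_const.add analyticAt_id)
    · intro s hs
      exact hsub _ ⟨by linarith [hs.1, ht0.1], by linarith [hs.2, (htI (ψ n0)).2]⟩
    · intro ε hε
      have e1 : ∀ᶠ n in atTop, t (ψ n) < t0 + ε := hψl.eventually (gt_mem_nhds (by linarith))
      obtain ⟨n, hn1, hn2⟩ := (hfr.and_eventually e1).exists
      refine ⟨t (ψ n) - t0, ⟨by linarith, by linarith⟩, ?_⟩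
      simp only [add_sub_cancel]
      rw [htq]
      exact hqp _
  · obtain ⟨n0, hn0⟩ := hfr.exists
    refine side h1 (fun s => γ i (t0 - s)) ?_ p hp (by simp [hγt0]) (t0 - t (ψ n0)) (by linarith) ?_ ?_
    · have e1 : AnalyticAt ℝ (γ i) ((fun s : ℝ => t0 - s) 0) := by simpa using hγ i t0 ht0
      exact e1.comp (analyticAt_const.sub analyticAt_id)
    · intro s hs
      exact hsub _ ⟨by linarith [hs.2, (htI (ψ n0)).1], by linarith [hs.1, ht0.2]⟩
    · intro ε hε
      have e1 : ∀ᶠ n in atTop, t0 - ε < t (ψ n) := hψl.eventually (lt_mem_nhds (by linarith))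
      obtain ⟨n, hn1, hn2⟩ := (hfr.and_eventually e1).exists
      refine ⟨t0 - t (ψ n), ⟨by linarith, by linarith⟩, ?_⟩
      simp only [sub_sub_cancel]
      rw [htq]
      exact hqp _

/-- points of a connected set near a given point of it -/
theorem acc (S : Set (ℝ × ℝ)) (hS : IsPreconnected S) (p p' : ℝ × ℝ) (hp : p ∈ S) (hp' : p' ∈ S) (hne : p' ≠ p) :
    ∀ ε > 0, ∃ q ∈ S, q ≠ p ∧ dist q p < ε := by
  intro ε hε
  by_contra hno
  push Not at hno
  obtain ⟨q, hq, h1, h2⟩ := hS (Metric.ball p ε) {p}ᶜ Metric.isOpen_ball isOpen_compl_singleton (by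
    intro q hq
    rcases eq_or_ne q p with h | h
    · exact Or.inl (by rw [h]; exact Metric.mem_ball_self hε)
    · exact Or.inr h) ⟨p, hp, Metric.mem_ball_self hε⟩ ⟨p', hp', hne⟩
  exact absurd (hno q hq h2) (not_le.2 (Metric.mem_ball.1 h1))

end Pool.Agent.Helper5.GB

end
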