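import Pool.Agent.Helper5.GB.Asm
import Pool.Agent.Helper5.GB.Br
import Pool.Agent.Helper5.GB.Nan

/-!
# MP_b39980_an, project GB: the final statement from the module statements
-/

set_option autoImplicit false

open Set Filter Topology
open Helper85.HN (hen Orb Bd KK E0)

noncomputable section

namespace Pool.Agent.Helper5.GB

/-- The final statement. -/
def StStr : Prop :=
  ((-1, 0) ∈ GG ∧ (∀ b : ℝ, ∃ c : ℝ, (b, c) ∈ GG) ∧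
    (∀ C : Set (ℝ × ℝ), IsPreconnected C → (∃ q ∈ C, (1 + q.1) ^ 2 / 4 ≤ q.2) → (∃ q ∈ C, q.2 ≤ -(3 * (1 + |q.1|) ^ 2)) →
      (C ∩ GG).Nonempty) ∧
    (∀ q ∈ frontier E0, -(3 * (1 + |q.1|) ^ 2) ≤ q.2 ∧ q.2 ≤ (1 + q.1) ^ 2 / 4) ∧
    ¬IsPreconnected (GG \ {(1, 1)}) ∧ ¬IsPreconnected (GG \ {(-1, 0)}) ∧ ¬IsPreconnected (frontier E0 \ {(-1, 0)})) ∧
  (∃ Γ ⊆ GG, IsCompact Γ ∧ IsPreconnected Γ ∧ (-1, 0) ∈ Γ ∧ (1, 1) ∈ Γ ∧ (∀ q ∈ Γ, |q.1| ≤ 1) ∧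
    ∀ τ > (-1 / 4 : ℝ), ∃ b ∈ Ioo (-1 : ℝ) 1, (b, -(τ * (1 + b) ^ 2)) ∈ Γ) ∧
  (∃ a ε0 : ℝ, 0 < a ∧ 0 < ε0 ∧ ∀ ε ∈ Ioo 0 ε0,
    (∃ b1 b2 : ℝ, b1 < 1 ∧ 1 < b2 ∧ (b1, 1 - ε) ∈ GG ∧ (b2, 1 - ε) ∈ GG ∧
      1 - b1 ≤ Real.exp (-(a / ε ^ (1 / 4 : ℝ))) ∧ b2 - 1 ≤ Real.exp (-(a / ε ^ (1 / 4 : ℝ)))) ∧
    ∃ b1 b2 : ℝ, b1 < -1 ∧ -1 < b2 ∧ (b1, -ε) ∈ GG ∧ (b2, -ε) ∈ GG ∧
      -1 - b1 ≤ Real.exp (-(a / Real.sqrt ε)) ∧ b2 + 1 ≤ Real.exp (-(a / Real.sqrt ε))) ∧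
  (∀ I : Set ℝ, I.OrdConnected → Nonempty (I ≃ₜ frontier E0) →
    ∃ e : ℝ ≃ₜ frontier E0, (e 0 : ℝ × ℝ) = (-1, 0) ∧ (e 1 : ℝ × ℝ) = (1, 1) ∧
      (∀ t, (e t : ℝ × ℝ).1 < -1 ↔ t < 0) ∧ (∀ t, 1 < (e t : ℝ × ℝ).1 ↔ 1 < t) ∧
      Tendsto (fun t => (e t : ℝ × ℝ).1) atTop atTop ∧ Tendsto (fun t => (e t : ℝ × ℝ).1) atBot atBot) ∧
  (∀ N : ℕ, ∃ δ > 0,
    (∀ (q : ℝ × ℝ) (x : ℤ → ℝ) (m : ℕ), 1 ≤ m → m ≤ N → Orb q.1 q.2 x → (∀ n, x (n + m) = x n) →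
      (dist q (1, 1) < δ → ∀ n, x (n + 1) = x n) ∧ (dist q (-1, 0) < δ → ∀ n, x (n + 2) = x n)) ∧
    ∀ q ∈ frontier E0, dist q (-1, 0) < δ → q ≠ (-1, 0) →
      ∃ x : ℤ → ℝ, Orb q.1 q.2 x ∧ (∀ n, x (n + 2) = x n) ∧ ∀ n, x (n + 1) ≠ x n) ∧
  (∀ (ι : Type) (γ : ι → ℝ → ℝ × ℝ) (α β : ι → ℝ), (∀ i, AnalyticOnNhd ℝ (γ i) (Icc (α i) (β i))) →
    LocallyFinite (fun i => γ i '' Icc (α i) (β i)) → frontier E0 ≠ ⋃ i, γ i '' Icc (α i) (β i)) ∧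
  (∀ c : ℝ, ((-1, c) ∈ E0 ↔ 0 ≤ c) ∧ (c < 0 → (-1, c) ∈ interior E0ᶜ)) ∧
  ∀ η > 0, ∃ δ > 0, ∀ q ∈ frontier E0, |(|q.1| - 1)| < δ → dist q (1, 1) < η ∨ dist q (-1, 0) < η

private theorem mono_exp {a a' u : ℝ} (h : a ≤ a') (hu : 0 ≤ u) : Real.exp (-(a' / u)) ≤ Real.exp (-(a / u)) := by
  apply Real.exp_le_exp.2
  apply neg_le_neg
  gcongr

theorem str (hP : StPri) (hA : StBrA) (hB : StBrB) (hC : StArc) (hD : StPer) (hE : StAna) (hF : Helper83.PF.StPinch) (h1 : StBot)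
    (h2 : Helper85.HN.StTop) : StStr := by
  obtain ⟨p1, p2, p3, p4, p5, p6⟩ := hP
  obtain ⟨a1, e1, ha1, he1, g1⟩ := hA
  obtain ⟨a2, e2, ha2, he2, g2⟩ := hB
  obtain ⟨q1, q2, q3, q4, q5⟩ := hF
  refine ⟨⟨p1, p2, p5, bds h1 h2, p3, p4, q4⟩, p6, ?_, hC, hD, ?_, q1, q2⟩
  · refine ⟨min a1 a2, min e1 e2, lt_min ha1 ha2, lt_min he1 he2, ?_⟩
    intro ε hε
    obtain ⟨b1, b2, k1, k2, k3, k4, k5, k6⟩ := g1 ε ⟨hε.1, hε.2.trans_le (min_le_left _ _)⟩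
    obtain ⟨c1, c2, l1, l2, l3, l4, l5, l6⟩ := g2 ε ⟨hε.1, hε.2.trans_le (min_le_right _ _)⟩
    have hr : 0 ≤ ε ^ (1 / 4 : ℝ) := Real.rpow_nonneg hε.1.le _
    exact ⟨⟨b1, b2, k1, k2, k3, k4, k5.trans (mono_exp (min_le_left _ _) hr), k6.trans (mono_exp (min_le_left _ _) hr)⟩,
      ⟨c1, c2, l1, l2, l3, l4, l5.trans (mono_exp (min_le_right _ _) (Real.sqrt_nonneg _)), l6.trans (mono_exp (min_le_right _ _) (Real.sqrt_nonneg _))⟩⟩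
  · refine nan hE (-1, 0) (Or.inr rfl) ?_
    intro ε hε
    have h11 : ((1 : ℝ), (1 : ℝ)) ∈ GG := by
      obtain ⟨Γ, k1, -, -, -, k5, -⟩ := p6
      exact k1 k5
    obtain ⟨q, hq, hq1, hq2⟩ := acc GG isPreconnected_connectedComponentIn (-1, 0) (1, 1) p1 h11 (by
      intro h
      have := congrArg Prod.fst h
      norm_num at this) ε hε
    exact ⟨q, GG_sub hq, hq1, hq2⟩

end Pool.Agent.Helper5.GB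

end
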