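import Pool.Agent.Helper5.GB.Fin
import Pool.Agent.Helper83.TH.Main
import Pool.Agent.Helper75.GB.M_Mir
import Pool.Agent.Helper16.GB.M_Sep
import Pool.Agent.Helper45.GB.M_Crs
import Pool.Agent.Helper47.GB.M_Big
import Pool.Agent.Helper95.GB.M_Biz
import Pool.Agent.Helper90.GB.M_Bot
import Pool.Agent.Helper26.GB.M_Cyc
import Pool.Agent.Helper1.GB.M_Tip
import Pool.Agent.Helper51.GB.M_Flt
import Pool.Agent.Helper24.GB.M_Ana
import Pool.Agent.Helper53.GB.M_Lin
import Pool.Agent.Helper86.GB.M_Emb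

/-!
# MP_b39980_an, project GB: main theorem
-/

set_option autoImplicit false

namespace Pool.Agent.Helper5.GB

theorem gSep : StSep := _root_.Pool.Agent.Helper16.GB.hSep _root_.Pool.Agent.Helper75.GB.hMir
theorem gBig : StBig := _root_.Pool.Agent.Helper47.GB.hBig (_root_.Pool.Agent.Helper45.GB.hCrs _root_.Pool.Agent.Helper75.GB.hMir)
theorem gBot : StBot := _root_.Pool.Agent.Helper90.GB.hBot Helper83.PE.hSub Helper83.PE.hWord _root_.Pool.Agent.Helper95.GB.hBiz
  Helper83.PE.hEnt Helper85.HN.hKc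
theorem gHof : StHof := Helper83.TH.gHof
theorem gNeg : StNeg := Helper83.TH.gNeg
theorem gTip : StTip := _root_.Pool.Agent.Helper1.GB.hTip gHof
theorem gEmb : StEmb := _root_.Pool.Agent.Helper86.GB.hEmb _root_.Pool.Agent.Helper53.GB.hLin
theorem gAna : StAna := _root_.Pool.Agent.Helper24.GB.hAna _root_.Pool.Agent.Helper51.GB.hFlt Helper85.HN.main Helper83.PE.finA gHof gNeg
theorem gPri : StPri := pri gSep gBig gTip gBot Helper85.HN.main Helper83.PE.finA gNeg Helper83.PE.fin.2.1
theorem gArc : StArc := arc gEmb gPri gBot Helper85.HN.main Helper83.PE.finA gNeg Helper83.PE.fin.2.1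
theorem gPer : StPer := per _root_.Pool.Agent.Helper26.GB.hCyc gTip
theorem gBrA : StBrA := brA gPri Helper85.HN.main Helper83.PE.finA
theorem gBrB : StBrB := brB gPri Helper85.HN.main gNeg gHof

theorem main : StStr := str gPri gBrA gBrB gArc gPer gAna Helper83.PF.main gBot Helper85.HN.main

end Pool.Agent.Helper5.GB
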