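import Pool.Agent.Helper83.PF.St

/-!
# MP_b39980_an, project GB: the principal component of the boundary of the zero entropy locus

Final theorem (module Main, by helper5).  Let `F = frontier E0` and let `G` be the component of `F` which contains `(1,1)`.  `G` contains
`(-1,0)`, meets every vertical line, separates `{c ≥ (1+b)²/4}` from `{c ≤ -3 (1+|b|)²}`, and crosses every parabola
`c = -τ (1+b)²`, `τ > -1/4`, at some `b ∈ (-1,1)`.  If `F` is an arc then it is a closed embedded line with `b → ± ∞`.  Close to the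
points `(1,1)` and `(-1,0)` there are no periodic orbits of small period besides those of period `1` (resp. `2`), and no real analytic
curve in `F` ends at one of them.

Every module `M_XX.lean` proves `theorem hXX : StXX` (with the hypotheses named in its row).
-/

set_option autoImplicit false

open Set Filter Topology
open Helper85.HN (hen Orb Bd KK E0)

noncomputable section

namespace Pool.Agent.Helper5.GB

/-! ## Part 1: plane topology -/

/-- MODULE Mir (150 lines). The Poincare-Miranda theorem in a rectangle.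
Proof. Suppose `|f| + |g| > 0` everywhere on the compact rectangle `R`; then `|f| + |g| ≥ 2 μ` with `μ > 0`. By uniform continuity (`R` compact) there is `ε > 0` such that `dist z w < ε`
(`z, w ∈ R`) implies `|f z - f w| < μ` and `|g z - g w| < μ`. Choose `N ≥ 1` with `(q - p)/N < ε` and `(s - r)/N < ε`. For `y : Fin 2 → ℕ` put `P y = (p + (q-p) y0/N, r + (s-r) y1/N)`. Colour: `F 0 y = 0` if `y 0 = 0` or (`y 0 ≠ N` and `f (P y) < 0`), `1` otherwise; the same
for `F 1`, with `y 1` and `g`. `Pool.Agent.Helper52.CM.Grid.exists_cube` (`Pool/Agent/Helper52/CM/Grid.lean`, `n = 2`; import it) gives a cell on which both colours take both values. All points of the cell have coordinates `≤ N`, so `P y ∈ R`; a point of colour `F 0 = 0` has `f (P y) ≤ 0`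
(hypothesis for `y 0 = 0`), a point of colour `1` has `f (P y) ≥ 0`. Two points of the cell have distance `< ε` (maximum metric), so `|f (P y)| < μ` for the first point of the pair, and for every point of the cell `|f| < 2 μ`... (take the constant `μ` such that the last step works, e.g.
replace `2 μ` by `4 μ`): `|f| + |g| < 4 μ` at a point of the cell, contradiction. -/
def StMir : Prop := ∀ (p q r s : ℝ) (f g : ℝ × ℝ → ℝ), p < q → r < s →
  ContinuousOn f (Icc p q ×ˢ Icc r s) → ContinuousOn g (Icc p q ×ˢ Icc r s) →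
  (∀ y ∈ Icc r s, f (p, y) ≤ 0 ∧ 0 ≤ f (q, y)) → (∀ x ∈ Icc p q, g (x, r) ≤ 0 ∧ 0 ≤ g (x, s)) →
  ∃ z ∈ Icc p q ×ˢ Icc r s, f z = 0 ∧ g z = 0

/-- MODULE Sep (150 lines; theorem hSep (h1 : StMir) : StSep). A component of the frontier joins the left side to the right side.
Proof. `R = Icc p q ×ˢ Icc r s`, `K = frontier E ∩ R` compact, `L = {z ∈ K | z.1 = p}`, `Q = {z ∈ K | z.1 = q}`. Claim: some component of `K` meets `L` and `Q` (take it as `Γ`; components of a compact set are closed, so compact; it is convenient to work in the subtype `↥K`, a compact Hausdorff space, and to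
take the image of `connectedComponent x` under `Subtype.val`). Suppose not. For `x ∈ L` (as a point of `↥K`) `connectedComponent x = ⋂ {clopen sets containing x}` (`connectedComponent_eq_iInter_isClopen`) is disjoint from the compact set `Q`, so there is a clopen `U x ∋ x` disjoint
from `Q` (finite intersection property / `IsCompact.elim_directed_family_closed_of_isCompact` or `elim_finite_subfamily`: a finite intersection of clopen sets is clopen). `L` is compact: finitely many `U x` cover it; their union `U` is clopen in `K`, `L ⊆ U`, `U ∩ Q = ∅`. Let `K1 = U`, `K2 = K ∖ U` (compact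
subsets of the plane), `A = K1 ∪ ({p} ×ˢ Icc r s)`, `B = K2 ∪ ({q} ×ˢ Icc r s)`: disjoint nonempty compact sets (`K2` has no point with `z.1 = p`, `K1` none with `z.1 = q`). `f z = Metric.infDist z A - Metric.infDist z B`, `g z = Metric.infDist z (closure Eᶜ) - Metric.infDist z (closure E)`: continuous.
`f ≤ 0` on the left side, `f ≥ 0` on the right side, `g ≤ 0` on the bottom (in `closure Eᶜ`), `g ≥ 0` on the top (in `closure E`). StMir: `z ∈ R` with `f z = 0`, `g z = 0`. One of the two terms of `g z` is `0` (`z ∈ E` or `z ∈ Eᶜ`), so both are, so `z ∈ closure E ∩ closure Eᶜ = frontier E`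
(`IsClosed.mem_iff_infDist_zero`, `frontier_eq_closure_inter_closure`; both closures are nonempty); so `z ∈ K = K1 ∪ K2 ⊆ A ∪ B`. `f z = 0` then gives `z ∈ A ∩ B`, contradiction. -/
def StSep : Prop := ∀ (E : Set (ℝ × ℝ)) (p q r s : ℝ), p < q → r < s →
  (∀ x ∈ Icc p q, (x, s) ∈ closure E) → (∀ x ∈ Icc p q, (x, r) ∈ closure Eᶜ) →
  ∃ Γ ⊆ frontier E ∩ (Icc p q ×ˢ Icc r s), IsCompact Γ ∧ IsPreconnected Γ ∧ (∃ z ∈ Γ, z.1 = p) ∧ ∃ z ∈ Γ, z.1 = q

/-- MODULE Crs (130 lines; theorem hCrs (h1 : StMir) : StCrs). Crossing lemma.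
Proof. Let `γ : [0,1] → R ∖ Γ` be the path from `z` to `w` (`R` the rectangle); its image is compact and disjoint from the compact `Γ`: there is `δ > 0` with `dist u (γ t) ≥ δ` for `u ∈ Γ` and all `t`. Let `a, a' ∈ Γ` with `a.1 = p`, `a'.1 = q`. Claim: `JoinedIn U a a'` for
`U = R ∩ Metric.thickening δ Γ`. The set `S = {u ∈ Γ | JoinedIn U a u}`: if `u, u' ∈ Γ`, `dist u u' < δ` then the segment from `u` to `u'` lies in the convex set `ball u δ ∩ R ⊆ U`, so `u ∈ S ↔ u' ∈ S`. So `S` and `Γ ∖ S` are separated by the open sets `⋃_{u ∈ S} ball u (δ/2)`... , `Γ` is preconnected, `a ∈ S`, so `S = Γ`.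
Let `π : [0,1] → U` be a path from `a` to `a'` (`JoinedIn.somePath`, extended to `ℝ` by `Path.extend`). StMir in the square `[0,1]²` for `f (σ,t) = (π σ).1 - (γ t).1` (`≤ 0` for `σ = 0`, `≥ 0` for `σ = 1`) and `g (σ,t) = (γ t).2 - (π σ).2` (`≤ 0` for `t = 0`, `≥ 0` for `t = 1`): `π σ = γ t`. As `π σ` is in the `δ`-thickening
of `Γ` some `u ∈ Γ` has `dist u (γ t) < δ`, contradiction. -/
def StCrs : Prop := ∀ (p q r s : ℝ) (Γ : Set (ℝ × ℝ)) (z w : ℝ × ℝ), p < q → r < s → IsCompact Γ → IsPreconnected Γ →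
  Γ ⊆ Icc p q ×ˢ Icc r s → (∃ u ∈ Γ, u.1 = p) → (∃ u ∈ Γ, u.1 = q) → z.2 = r → w.2 = s →
  ¬JoinedIn ((Icc p q ×ˢ Icc r s) \ Γ) z w

/-- MODULE Big (150 lines; theorem hBig (h1 : StCrs) : StBig). A closed set which crosses all strips separates.
Proof. Suppose `C ∩ G = ∅`; let `a, v ∈ C` with `hi a.1 ≤ a.2`, `v.2 ≤ lo v.1`. `Gᶜ` is open, `V = connectedComponentIn Gᶜ a` is open (`IsOpen.connectedComponentIn`) and connected, hence path connected (`IsOpen.isConnected_iff_isPathConnected`), and `v ∈ V` (`IsPreconnected.subset_connectedComponentIn`).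
So `JoinedIn Gᶜ v a` with a path of compact image `P`. Choose `N ≥ 1` with `|z.1| ≤ N` for `z ∈ P`, and `r, s` with `r < z.2 < s` for all `z ∈ P` and `r < lo x`, `hi x < s` for `x ∈ [-N,N]` (compactness). Then `G ∩ {|z.1| ≤ N} ⊆ R = [-N,N] × [r,s]`. The vertical segment from `(v.1, r)` to `v` lies in `R ∖ G`
(below `v`: `z.2 < lo z.1`, not in `G`; `v ∉ G`), so does the segment from `a` to `(a.1, s)`. With `P ⊆ R ∖ G`: `JoinedIn (R ∖ G) (v.1, r) (a.1, s)`, so also in `R ∖ Γ` for the set `Γ ⊆ G` of the hypothesis (`JoinedIn.mono`; `Γ ⊆ R`). This contradicts StCrs. -/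
def StBig : Prop := ∀ (G : Set (ℝ × ℝ)) (lo hi : ℝ → ℝ), IsClosed G → Continuous lo → Continuous hi →
  (∀ z ∈ G, lo z.1 ≤ z.2 ∧ z.2 ≤ hi z.1) →
  (∀ N : ℝ, 1 ≤ N → ∃ Γ ⊆ G, IsCompact Γ ∧ IsPreconnected Γ ∧ (∃ z ∈ Γ, z.1 = -N) ∧ (∃ z ∈ Γ, z.1 = N) ∧ ∀ z ∈ Γ, |z.1| ≤ N) →
  ∀ C : Set (ℝ × ℝ), IsPreconnected C → (∃ z ∈ C, hi z.1 ≤ z.2) → (∃ z ∈ C, z.2 ≤ lo z.1) → (C ∩ G).Nonempty

/-! ## Part 2: the region of very negative `c`, also for `b = 0` -/

/-- MODULE Biz (120 lines). The statement `Helper83.PE.StBi` also for `b = 0` (see `Pool/Agent/Helper83/PE/M_Bi.lean` for `b ≠ 0`; here a proof for all `b`, without the inverse map).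
Proof. `g = hen b c`, `T = m1 + m2 ≥ 1`. For `n : ℕ` take `z n` from the hypothesis for the word `w' j = w (j - n)` and `k' = 2 n + k`, and `X n : ℤ → ℝ`, `X n i = (g^[(i + n*T).toNat] (z n)).1` for `i ≥ -n*T`, and `X n i = 0` for smaller `i`. All `g^[i] (z n)`, `i ≤ k'*T`, lie in the compact set
`⋃_{i ≤ T} g^[i] D`, whose first coordinates are bounded by some `M ≥ 0`. So `X n i ∈ [-M, M]` for `i ≤ n*T`; redefine `X n i = 0` for `i > n*T`. The space `ℤ → Icc (-M) M` is compact and metrizable (`isCompact_univ_pi`, sequential compactness as `ℤ` is countable; or use an ultrafilter / cluster point of the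
sequence instead of a subsequence): a subsequence of `X n` converges pointwise to `x`. For fixed `i` and large `n`: `X n (i+1) = (X n i)² + c - b X n (i-1)`, as `(g z).1 = z.1 ^ 2 + c - b * z.2`, `(g z).2 = z.1`; so `Orb b c x`, `Bd x`. Let `y = (x 0, x (-1)) ∈ KK b c`, the limit of `y n = g^[n*T] (z n)` along the
subsequence (for `n ≥ 1`: `(g^[n*T] (z n)).2 = (g^[n*T-1] (z n)).1 = X n (-1)`). `g^[j*T+m1] (y n) ∈ (if w j then D else E)` for `j < k`; `g` is continuous, `D`, `E` are closed. -/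
def StBiz : Prop := ∀ (b c : ℝ) (D E : Set (ℝ × ℝ)) (m1 m2 : ℕ), 1 ≤ m1 → IsCompact D → IsCompact E →
  (∀ (w : ℕ → Bool) (k : ℕ), ∃ z ∈ D, (∀ j ≤ k, (hen b c)^[j * (m1 + m2)] z ∈ D) ∧
    ∀ j < k, (hen b c)^[j * (m1 + m2) + m1] z ∈ (if w j = true then D else E)) →
  ∀ (w : ℕ → Bool) (k : ℕ), ∃ z ∈ KK b c, ∀ j < k, (hen b c)^[j * (m1 + m2) + m1] z ∈ (if w j = true then D else E)

/-- MODULE Bot (150 lines; theorem hBot (h1 : Helper83.PE.StSub) (h2 : Helper83.PE.StWord) (h3 : StBiz) (h4 : Helper83.PE.StEnt) (h5 : Helper85.HN.StKc) : StBot). Copy `Pool/Agent/Helper83/PF/M_Hor.lean` (`hHor`) with these constants: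
`k = 1 + |b|`, `s = √(-c)`, `s² ≥ 3 k²`, `R = s + k`, `D = {1/2 ≤ x ≤ R, |y| ≤ R}`, `E = {-R ≤ x ≤ -1/2, |y| ≤ R}`, `am = 1/2`, `ap = R`. At `x = ± R`: `(g z).1 ≥ R² - s² - |b| R = k (R + s) - |b| R ≥ R`. At `x = ± 1/2`: `(g z).1 ≤ 1/4 - s² + |b| R ≤ -R`, i.e.
`1/4 + k (s + k) ≤ s²`: `s ≥ (173/100) k` (`(173/100)² ≤ 3`), so `s (s - k) ≥ (173/100)(73/100) k² ≥ k² + 1/4` as `k ≥ 1`. -/
def StBot : Prop := ∀ b c : ℝ, c ≤ -(3 * (1 + |b|) ^ 2) → 0 < Dynamics.coverEntropy (hen b c) (KK b c)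

/-! ## Part 3: the two conservative points -/

/-- MODULE Cyc (220 lines). No periodic orbits of small period near the conservative points.
Proof. For `m`-periodic `f : ℤ → ℝ` and every `i`: `∑ j ∈ range m, f (i + j)` does not depend on `i`. (1) Near `(1,1)`: `u n = x n - (1+b)/2`, `e = (1+b)²/4 - c`: `u (n+1) - u n = b (u n - u (n-1)) + u n ^ 2 - e`. The sum over a period gives `∑ u² = m e`, so `u n ^ 2 ≤ m e` for all `n`; let
`κ = √(m e)` (`e ≥ 0` follows). `Δ n = u (n+1) - u n`, `M = max |Δ n|` (attained, periodic), `W n = Δ n - b Δ (n-1) = u n ^ 2 - e`: `W (n+1) - W n = (u (n+1) + u n) Δ n`, so `|W (n+1) - W n| ≤ 2 κ M`. `∑ W = 0` over a period, so some value of `W` is `≤ 0` and some is `≥ 0`, hence `|W n| ≤ 2 m κ M`.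
`Δ n - Δ (n-1) = W n - (1-b) Δ (n-1)` has absolute value `≤ (2 m κ + |1-b|) M`, `∑ Δ = 0`, so as before `|Δ n| ≤ m (2 m κ + |1-b|) M` for all `n`. If `m (2 m κ + |1-b|) < 1` then `M = 0`. As `m ≤ N` and `e ≤ |b-1| + (b-1)²/4 + |c-1|` this holds for small `δ`.
(2) Near `(-1,0)`. First `m` even (replace `m` by `2 m ≤ 2 N`; `x` is also `2m`-periodic). The sum of the orbit equation gives `S = ∑ x² = (1+b) ∑ x - m c ≤ |1+b| (m + S)/2 + m |c|`, so for `|1+b| ≤ 1` `S ≤ m (|1+b| + 2 |c|)`; `κ = √(m (|1+b| + 2|c|))` bounds all `|x n|`. `E n = x (n+1) - x (n-1)`, `M = max |E n|`;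
`E n = x n ^ 2 + c - (1+b) x (n-1)`, so `E (n+2) - E n = (x (n+2) + x n) E (n+1) - (1+b) E n`, `|E (n+2) - E n| ≤ (2 κ + |1+b|) M`. `∑_{j < m/2} E (n + 2 j) = x (n + m - 1) - x (n - 1) = 0`, so `|E n| ≤ (m/2) (2 κ + |1+b|) M`. For small `δ` the factor is `< 1`, so `M = 0` and `x (n+1) = x (n-1)`. -/
def StCyc : Prop := ∀ N : ℕ, ∃ δ > 0, ∀ (b c : ℝ) (x : ℤ → ℝ) (m : ℕ), 1 ≤ m → m ≤ N → Orb b c x → (∀ n, x (n + m) = x n) →
  (|b - 1| < δ → |c - 1| < δ → ∀ n, x (n + 1) = x n) ∧ (|b + 1| < δ → |c| < δ → ∀ n, x (n + 2) = x n)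

/-- Proved: `Helper83.TH.main`, second part. Frontier points near `(-1,0)`. -/
def StHof : Prop := ∃ a d : ℝ, 0 < a ∧ 0 < d ∧ ∀ q ∈ frontier E0, |q.1 + 1| < d → |q.2| < d →
  q = (-1, 0) ∨ (q.2 < 0 ∧ |q.1 + 1| ≤ Real.exp (-(a / Real.sqrt (-q.2))))

/-- MODULE Tip (70 lines; theorem hTip (h1 : StHof) : StTip). Frontier points near `(-1,0)` lie below every parabola `c = -τ (1+b)²`.
Proof. For `τ ≤ 0` take `δ = d`. For `τ > 0`: `x = √(-q.2)`, `(1+q.1)² ≤ exp (-(2a/x)) ≤ 6 x³/(8 a³)` (`exp t ≥ t³/6` for `t ≥ 0`), so `τ (1 + q.1)² ≤ (6 τ/(8 a³)) x³ < x² = -q.2` if `x < 8 a³/(6 τ)`, i.e. if `-q.2` is small. `dist` on `ℝ × ℝ` is the maximum of the coordinate distances. -/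
def StTip : Prop := ∀ τ : ℝ, ∃ δ > 0, ∀ q ∈ frontier E0, dist q (-1, 0) < δ → q ≠ (-1, 0) → q.2 + τ * (1 + q.1) ^ 2 < 0

/-- MODULE Flt (100 lines). Flat analytic functions.
Proof. If `f` is not eventually zero near `0` then `f t = t ^ n • g t` near `0` with `g` analytic, `g 0 ≠ 0` (`AnalyticAt.exists_eventuallyEq_pow_smul_nonzero_iff`), so `|f t| ≥ (|g 0|/2) t ^ n` for small `t > 0`. But `exp (-(a/(K t)^κ)) = o (t ^ n)` for `t → 0+`
(put `y = a/(K t)^κ → ∞`; `exp (-y) y^j → 0` for all `j`, choose `j κ ≥ n + 1`). -/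
def StFlt : Prop := ∀ (f : ℝ → ℝ) (a K κ : ℝ), 0 < a → 0 < K → 0 < κ → AnalyticAt ℝ f 0 →
  (∀ᶠ t in 𝓝[>] (0 : ℝ), |f t| ≤ Real.exp (-(a / (K * t) ^ κ))) → ∀ᶠ t in 𝓝 (0 : ℝ), f t = 0

/-- MODULE Ana (150 lines; theorem hAna (h1 : StFlt) (h2 : Helper85.HN.StTop) (h3 : Helper83.PE.StFinA) (h4 : StHof) (h5 : StNeg) : StAna). No analytic curve of the frontier ends at a conservative point.
Proof. `γ = (B, C)`, both analytic at `0`; suppose the eventual statement. Case `(1,1)`: `e t = (1 + B t)²/4 - C t` is analytic, `e 0 = 0`, so `|e t| ≤ K t` for small `t > 0` (`K > 0`; differentiability). By StTop (first part) `e t ≥ 0`, and `e t = 0` only if `γ t = (1,1)` or `(-1,0)`; the first is excluded by hypothesis, the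
second by continuity; so `e t > 0` and small, and the last part of StTop gives `|B t - 1| ≤ exp (-(a/(e t)^(1/4))) ≤ exp (-(a/(K t)^(1/4)))`. StFlt: `B = 1` near `0`. So for small `t > 0` the point `γ t = (1, C t)`, `C t < 1`, is in the frontier; but StFinA says that a neighbourhood of it does not meet `E0`. Case `(-1,0)`: StHof gives
`C t < 0`, `|B t + 1| ≤ exp (-(a/√(-C t)))`, `-C t ≤ K t`; StFlt with `κ = 1/2` (`Real.sqrt_eq_rpow`): `B = -1` near `0`; contradiction with StNeg. -/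
def StNeg : Prop := ∀ c : ℝ, c < 0 → ∃ δ > 0, ∀ b' c' : ℝ, |b' + 1| < δ → |c' - c| < δ → ((b', c') : ℝ × ℝ) ∉ E0

/-- See the docstring of `StNeg` for the proof. -/
def StAna : Prop := ∀ γ : ℝ → ℝ × ℝ, AnalyticAt ℝ γ 0 → (γ 0 = (1, 1) ∨ γ 0 = (-1, 0)) →
  ¬∀ᶠ t in 𝓝[>] (0 : ℝ), γ t ∈ frontier E0 ∧ γ t ≠ γ 0

/-! ## Part 4: if the frontier is an arc -/

/-- MODULE Lin (120 lines). Open intervals are homeomorphic to the line.
Proof. Mathlib has an order isomorphism `orderIsoIooNegOneOne : k ≃o Ioo (-1) 1`; let `θ : ℝ → ℝ` be its underlying map (strictly increasing, continuous, open). `θ '' I` is open, order connected, bounded and nonempty, so it is `Ioo α β` with `α = sInf`, `β = sSup`; the affine map `Ioo α β ≃ Ioo (-1) 1` followed by the inverse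
of `θ` gives an order isomorphism `I ≃o ℝ`, and an affine bijection of `ℝ` moves the images of `s0 < s1` to `0 < 1`. An order isomorphism is a homeomorphism (`OrderIso.toHomeomorph`; the subspace topology of an order connected set is the order topology: `orderTopology_of_ordConnected`). -/
def StLin : Prop := ∀ (I : Set ℝ) (s0 s1 : ℝ), I.OrdConnected → IsOpen I → ∀ (h0 : s0 ∈ I) (h1 : s1 ∈ I), s0 < s1 →
  ∃ e : ℝ ≃ₜ I, StrictMono (fun t => (e t : ℝ)) ∧ e 0 = ⟨s0, h0⟩ ∧ e 1 = ⟨s1, h1⟩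

/-- MODULE Emb (220 lines; theorem hEmb (h1 : StLin) : StEmb). An arc which crosses all vertical lines, with two cut points. (Compare `Pool/Agent/Helper83/PF/M_Itv.lean`.)
Proof. `φ : I ≃ₜ S`, `t1 = φ⁻¹ p1`, `t2 = φ⁻¹ p2`, `t1 ≠ t2`. Replacing `I` by `-I` (and `φ` by `φ ∘ neg`) we may assume `t2 < t1`. `S ∖ {p1}` is the union of the disjoint relatively open sets `{q.1 < 1}`, `{q.1 > 1}`, both nonempty. `I ∩ Iio t1` and `I ∩ Ioi t1` are order connected, hence preconnected, so each is mapped into one of the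
two; `t2 ∈ I ∩ Iio t1`, `p2.1 = -1 < 1`, so `φ (I ∩ Iio t1) ⊆ {q.1 < 1}`, and as `{q.1 > 1}` is not empty `φ (I ∩ Ioi t1) ⊆ {q.1 > 1}`. In the same way `φ (I ∩ Ioi t2) ⊆ {q.1 > -1}` and `φ (I ∩ Iio t2) ⊆ {q.1 < -1}`. `I` has no largest element `r`: otherwise `S ∩ {q.1 ≥ 1} = φ (I ∩ Icc t1 r)` is compact, so `q.1` is bounded on it,
but every vertical line meets `S`. In the same way `I` has no least element. So `I` is open. StLin: `e' : ℝ ≃ₜ I` increasing with `e' 0 = t2`, `e' 1 = t1`; `e = e' ≫ φ`. Limits: for `N ≥ 1` the set `S ∩ {|q.1| ≤ N}` is compact, so its preimage under `e` is compact, so bounded by some `T ≥ 1`; for `t > T` we have `(e t).1 > 1` and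
`|(e t).1| > N`, so `(e t).1 > N`. The same at `-∞`. -/
def StEmb : Prop := ∀ (S : Set (ℝ × ℝ)) (p1 p2 : ℝ × ℝ), p1 ∈ S → p2 ∈ S → p1.1 = 1 → p2.1 = -1 →
  (∀ q ∈ S, q.1 = 1 → q = p1) → (∀ q ∈ S, q.1 = -1 → q = p2) → (∀ x : ℝ, ∃ q ∈ S, q.1 = x) →
  (∀ N : ℝ, IsCompact (S ∩ {q | |q.1| ≤ N})) → ∀ I : Set ℝ, I.OrdConnected → Nonempty (I ≃ₜ S) →
  ∃ e : ℝ ≃ₜ S, (e 0 : ℝ × ℝ) = p2 ∧ (e 1 : ℝ × ℝ) = p1 ∧ (∀ t, (e t : ℝ × ℝ).1 < -1 ↔ t < 0) ∧ (∀ t, 1 < (e t : ℝ × ℝ).1 ↔ 1 < t) ∧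
    Tendsto (fun t => (e t : ℝ × ℝ).1) atTop atTop ∧ Tendsto (fun t => (e t : ℝ × ℝ).1) atBot atBot

end Pool.Agent.Helper5.GB

end
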